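import Pool.Agent.X148.TR.Expo

set_option autoImplicit false

/-!
# Exponentials at algebraic points and linear forms in periods of one variable

`Forms γ` is the space of all linear combinations, with algebraic coefficients, of the integrals
of rational functions of one variable with algebraic coefficients over compact intervals with
algebraic end points, of all logarithms of algebraic numbers, and of finitely many arbitrary
complex numbers `γ 0, ..., γ (g - 1)`.
-/

namespace Pool.Agent.Results.MP_2cf66e_nt.AlgebraicExponents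

open Pool.Agent.TH379.PER
open Pool.Agent.X148.TR
open scoped Pointwise

/-- (1) several multipliers, (2) the multiplier `e` and its algebraic powers, (3) three or more
translates, (4) finite sets of algebraic numbers, (5) boxes -/
theorem result (g : ℕ) (γ : Fin g → ℂ) :
    (∀ (d : ℕ) (x : Fin d → ℂ), 2 ≤ d → LinearIndependent (algebraicClosure ℚ ℂ) x →
      {α : ℂ | IsAlgebraic ℚ α ∧ ∀ i, x i * Complex.exp α ∈ Forms γ}.encard ≤
        ((d * g + (if d = 2 then 2 else 1) : ℕ) : ℕ∞)) ∧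
    (∀ h : ℂ, IsAlgebraic ℚ h → h ≠ 0 →
      {α : ℂ | IsAlgebraic ℚ α ∧ Complex.exp α ∈ Forms γ ∧
        Complex.exp (α + h) ∈ Forms γ}.encard ≤ ((2 * g + 2 : ℕ) : ℕ∞)) ∧
    (∀ (d : ℕ) (h : Fin d → ℂ), 3 ≤ d → (∀ i, IsAlgebraic ℚ (h i)) → Function.Injective h →
      {α : ℂ | IsAlgebraic ℚ α ∧ ∀ i, Complex.exp (α + h i) ∈ Forms γ}.encard ≤
        ((d * g + 1 : ℕ) : ℕ∞)) ∧
    (∀ S : Finset ℂ, (∀ a ∈ S, IsAlgebraic ℚ a) → ∀ s : ℕ,
      s = Set.ncard {a : ℂ | a ∈ S ∧ Complex.exp a ∈ Forms γ} →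
      s * (s - 1) ≤ (2 * g + 2) * ((S - S).card - 1)) ∧
    (∀ (r : ℕ) (α : Fin r → ℂ), (∀ i, IsAlgebraic ℚ (α i)) → LinearIndependent ℚ α →
      ∀ N : ℕ, 1 ≤ N → ∀ s : ℕ,
      s = Set.ncard {n : Fin r → Fin N |
        Complex.exp (∑ i, ((n i : ℕ) : ℂ) * α i) ∈ Forms γ} →
      s * (s - 1) ≤ (2 * g + 2) * ((2 * N - 1) ^ r - 1)) := by
  classical
  refine ⟨fun d x hd hx => exp_Mult γ hd hx, fun h hh h0 => exp_diff γ hh h0,
    fun d h hd hh hinj => exp_many γ hd hh hinj, fun S hS s hs => ?_,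
    fun r α hα hli N hN s hs => box_count γ hα hli hN s hs⟩
  have h1 := good_card γ S hS
  have h2 : (good γ S).card = s := by
    rw [hs, ← Set.ncard_coe_finset]
    congr 1
    ext z
    exact Finset.mem_filter
  rwa [h2] at h1

end Pool.Agent.Results.MP_2cf66e_nt.AlgebraicExponents
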