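import Mathlib
import Pool.Agent.X90.MZ.Fam3
import Pool.Agent.TH456.TM.E

/-!
# Euler's number and the periods `ζ(w(n))`

For patterns `w_1, …, w_k`, for example `(n, n)`, `(2 n + 1, 3, 1)`, `(n, 2, n + 5)`, we consider the periods
`ζ(w_1(n)), …, ζ(w_k(n))` (multiple zeta values). Let `y` be a transcendental real number that is algebraic over `ℤ[e]`,
for example `e`, `e ^ (3 / 2)` or `e + √2`. Unconditionally, for all large `n`, all relations
`∑ β_j P_j(y, ζ(w_1(n)), …, ζ(w_k(n))) = 0` with real algebraic `β_j`, linearly independent over `ℚ`, and integer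
polynomials `P_j` of bounded degree and of height at most `C ^ n` are formal: they hold for all families of elements of
commutative rings that have the stuffle product, with an arbitrary element in place of `y`. In particular, `y` is not a
quotient of two polynomials of this size in these periods, and not algebraic of bounded degree over them with
coefficients of this size. The same holds for approximate relations, up to `B ^ (-n)`.

The proof uses the measure of transcendence of `e` and of all numbers algebraic over `ℤ[e]`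
(`Pool/Agent/TH456/TM/E.lean`, helper456), a measure of linear independence for the numbers `β_j y ^ i`
(`Pool/Agent/X90/MZ/Alg3.lean`), the method of `Pool/Agent/Y760/PZ/Core.lean` (helper760) and the linear independence of
the coefficient functions of the Dirichlet series (`Pool/Agent/TH507/WG`, helper507).
-/

set_option autoImplicit false

namespace Pool.Agent.Results.MP_2cf66e_nt.EulerAndMultipleZetaValues

/-- `trunc [s_1, ..., s_r] m` is the sum of `∏ k_i ^ (-s_i)` over `m > k_1 > ... > k_r ≥ 1` -/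
noncomputable def trunc : List ℕ → ℕ → ℝ
  | [], _ => 1
  | s :: l, m => ∑ j ∈ Finset.Ico 1 m, trunc l j / (j : ℝ) ^ s

/-- the multiple zeta value `ζ(s_1, ..., s_r)`, `s_1` belongs to the largest variable -/
noncomputable def mzv : List ℕ → ℝ
  | [] => 1
  | s :: l => ∑' k : ℕ, trunc l (k + 1) / ((k + 1 : ℕ) : ℝ) ^ s

/-- patterns `[(a_1, b_1), ..., (a_r, b_r)]` with `r ≥ 1`, `a_1 ≥ 1` and no entry `(0, 0)` -/
def Pattern : List (ℕ × ℕ) → Prop
  | [] => False
  | x :: l => 1 ≤ x.1 ∧ ∀ y ∈ l, y ≠ (0, 0)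

/-- the index `(a_1 n + b_1, ..., a_r n + b_r)` -/
def args (n : ℕ) (w : List (ℕ × ℕ)) : List ℕ := w.map fun x => x.1 * n + x.2

/-- admissible indices: `(s_1, ..., s_r)` with `r ≥ 1`, `s_1 ≥ 2` and all `s_i ≥ 1` -/
def AdmissibleIndex : List ℕ → Prop
  | [] => False
  | s :: l => 2 ≤ s ∧ ∀ t ∈ l, 1 ≤ t

/-- the list of the indices in the stuffle (series) product of two indices -/
def stuffles : List ℕ → List ℕ → List (List ℕ)
  | [], l => [l]
  | i :: k, [] => [i :: k]
  | i :: k, j :: l => (stuffles k (j :: l)).map (i :: ·) ++ (stuffles (i :: k) l).map (j :: ·) ++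
      (stuffles k l).map ((i + j) :: ·)
termination_by k l => k.length + l.length

/-- `Z` has the stuffle product: `Z(k) Z(l) = ∑ Z(m)` over the indices `m` of the stuffle product
of `k` and `l`, for all admissible indices `k` and `l` -/
def HasStuffleProduct {A : Type} [CommRing A] (Z : List ℕ → A) : Prop :=
  ∀ k l : List ℕ, AdmissibleIndex k → AdmissibleIndex l →
    Z k * Z l = ((stuffles k l).map Z).sum

/-- the point `(x, Z(w_1(n)), …, Z(w_k(n)))`; the coordinate `none` is `x` -/
def point {A : Type} {k : ℕ} (x : A) (Z : List ℕ → A) (n : ℕ) (w : Fin k → List (ℕ × ℕ)) :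
    Option (Fin k) → A := fun o => o.elim x fun i => Z (args n (w i))

theorem trunc_eq : ∀ l m, trunc l m = Pool.Agent.TH507.WD.hr l m := by
  intro l
  induction l with
  | nil => intro m; rw [trunc, Pool.Agent.TH507.WD.hr]
  | cons s l ih =>
    intro m
    rw [trunc, Pool.Agent.TH507.WD.hr]
    exact Finset.sum_congr rfl fun j _ => by rw [ih]

theorem mzv_eq : ∀ l, mzv l = Pool.Agent.TH507.WD.mz l := by
  intro l
  cases l with
  | nil => rw [mzv, Pool.Agent.TH507.WD.mz]
  | cons s l =>
    rw [mzv, Pool.Agent.TH507.WD.mz]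
    exact tsum_congr fun k => by rw [trunc_eq]

theorem stuffles_eq : ∀ u v, stuffles u v = Pool.Agent.X90.MZ.sti u v := by
  intro u v
  induction u, v using Pool.Agent.X90.MZ.sti.induct with
  | case1 v => rw [stuffles, Pool.Agent.X90.MZ.sti]
  | case2 x u => rw [stuffles, Pool.Agent.X90.MZ.sti]
  | case3 x u y v ih1 ih2 ih3 => rw [stuffles, Pool.Agent.X90.MZ.sti, ih1, ih2, ih3]

theorem adm_iff : ∀ u, AdmissibleIndex u ↔ Pool.Agent.X90.MZ.Ad u := by
  intro u
  cases u <;> exact Iff.rfl

theorem pattern_ok : ∀ v, Pattern v → v ≠ [] ∧ Pool.Agent.TH507.WG.HP v ∧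
    Pool.Agent.TH507.WG.OK v := by
  intro v hv
  cases v with
  | nil => exact hv.elim
  | cons x l =>
    refine ⟨List.cons_ne_nil _ _, hv.1, fun y hy hy1 => ?_⟩
    rcases List.mem_cons.1 hy with rfl | hy
    · have h13 := hv.1
      omega
    · have h13 := hv.2 y hy
      by_contra h14
      exact h13 (Prod.ext hy1 (by show y.2 = 0; omega))

/-- **Euler's number and the periods `ζ(w(n))`.** Let `y` be a transcendental real number that is algebraic over `ℤ[e]`
(for example `y = e`). Let `β_1, …, β_l` be real algebraic numbers, linearly independent over `ℚ`, let `w_1, …, w_k` be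
patterns and `D` a natural number. There are `B, C > 1` and `n0` such that for all `n ≥ n0` and all integer polynomials
`P_1, …, P_l` in `k + 1` variables of total degree at most `D` with coefficients of absolute value at most `C ^ n`: if
`|∑ β_j P_j(y, ζ(w_1(n)), …, ζ(w_k(n)))| ≤ B ^ (-n)`, then for all `j` `P_j(x, ζ(w_1(n)), …, ζ(w_k(n))) = 0` for all
real `x`, and `P_j(x, Z(w_1(n)), …, Z(w_k(n))) = 0` for all commutative rings `A`, all `x ∈ A` and all functions `Z` from
the indices to `A` that have the stuffle product. -/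
theorem result (y : ℝ) (hy : Transcendental ℤ y)
    (hye : IsAlgebraic (Algebra.adjoin ℤ ({Real.exp 1} : Set ℝ)) y)
    {l : ℕ} (β : Fin l → ℝ) (hβ : ∀ j, IsAlgebraic ℚ (β j))
    (hli : LinearIndependent ℚ β) (k D : ℕ) (w : Fin k → List (ℕ × ℕ)) (hw : ∀ i, Pattern (w i)) :
    ∃ B C : ℝ, 1 < B ∧ 1 < C ∧ ∃ n0 : ℕ, ∀ n : ℕ, n0 ≤ n →
      ∀ P : Fin l → MvPolynomial (Option (Fin k)) ℤ, (∀ j, (P j).totalDegree ≤ D) →
      (∀ j e, |(((P j).coeff e : ℤ) : ℝ)| ≤ C ^ n) →
      |∑ j, β j * MvPolynomial.aeval (point y mzv n w) (P j)| ≤ (B ^ n)⁻¹ →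
      ∀ j, (∀ x : ℝ, MvPolynomial.aeval (point x mzv n w) (P j) = 0) ∧
        ∀ (A : Type) [CommRing A] (x : A) (Z : List ℕ → A), HasStuffleProduct Z →
          MvPolynomial.aeval (point x Z n w) (P j) = 0 := by
  have h2 := mzv_eq
  have h3 := stuffles_eq
  have h4 := adm_iff
  have hpat := pattern_ok
  -- the measure of `y`
  have hmeas : Pool.Agent.TH456.TM.MeasT (y : ℂ) := by
    refine Pool.Agent.TH456.TM.measT_of_isAlgebraic Pool.Agent.TH456.TM.measT_e _ ?_ ?_
    · have hmem : ∀ z : ℝ, z ∈ Algebra.adjoin ℤ ({Real.exp 1} : Set ℝ) →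
          (Complex.ofRealHom : ℝ →+* ℂ) z ∈ Algebra.adjoin ℤ ({((Real.exp 1 : ℝ) : ℂ)} : Set ℂ) := by
        intro z h
        rw [Algebra.adjoin_singleton_eq_range_aeval] at h ⊢
        obtain ⟨p, hp⟩ := h
        refine ⟨p, ?_⟩
        rw [← hp]
        exact Polynomial.aeval_algebraMap_apply ℂ (Real.exp 1) p
      let f : Algebra.adjoin ℤ ({Real.exp 1} : Set ℝ) →+*
          Algebra.adjoin ℤ ({((Real.exp 1 : ℝ) : ℂ)} : Set ℂ) :=
        RingHom.codRestrict ((Complex.ofRealHom : ℝ →+* ℂ).comp
          (algebraMap (Algebra.adjoin ℤ ({Real.exp 1} : Set ℝ)) ℝ)) _ fun z => hmem z z.2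
      refine hye.ringHom_of_comp_eq f (Complex.ofRealHom : ℝ →+* ℂ) ?_ ?_
      · intro a b hab
        have h5 := congrArg Subtype.val hab
        exact Subtype.ext (Complex.ofReal_injective h5)
      · rfl
    · intro h
      apply hy
      exact (isAlgebraic_algebraMap_iff (A := ℂ) (algebraMap ℝ ℂ).injective).1 h
  obtain ⟨B, C, hB, hC, n0, h⟩ := Pool.Agent.X90.MZ.fam_meas hmeas β hβ hli k D w
    (fun i => (hpat _ (hw i)).2)
  have hpt : ∀ (x : ℝ) (n : ℕ), point x mzv n w = fun o : Option (Fin k) => o.elim x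
      fun i => Pool.Agent.TH507.WD.mz (Pool.Agent.TH507.WG.ar n (w i)) := by
    intro x n
    funext o
    cases o with
    | none => rfl
    | some i => exact h2 _
  refine ⟨B, C, hB, hC, n0, fun n hn P hPd hPC hsmall => ?_⟩
  simp only [hpt] at hsmall ⊢
  intro j
  obtain ⟨g1, g2⟩ := h n hn P hPd hPC hsmall j
  refine ⟨g1, fun A _ x Z hZ => ?_⟩
  have g3 := g2 A x Z (fun u v hu hv => by
    rw [hZ u v ((h4 u).2 hu) ((h4 v).2 hv), h3])
  have hpt2 : point x Z n w = fun o : Option (Fin k) => o.elim x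
      fun i => Pool.Agent.X90.MZ.ex Z (Pool.Agent.TH507.WG.ar n (w i)) := by
    funext o
    cases o with
    | none => rfl
    | some i =>
      have hne : Pool.Agent.TH507.WG.ar n (w i) ≠ [] := by
        intro h0
        exact (hpat _ (hw i)).1 (List.map_eq_nil_iff.1 h0)
      show Z (args n (w i)) = Pool.Agent.X90.MZ.ex Z (Pool.Agent.TH507.WG.ar n (w i))
      rw [Pool.Agent.X90.MZ.ex_ne Z hne]
      rfl
  rw [hpt2]
  exact g3

end Pool.Agent.Results.MP_2cf66e_nt.EulerAndMultipleZetaValues
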