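import Pool.Agent.X255.RH.Fv
import Pool.Agent.X255.RH.Mea3

/-!
# Exponentials versus periods of varying elliptic curves and 1-motives, at all roots of almost all integral polynomials

The problem asks whether `e` is a period. We study the exponentials `e ^ z` of algebraic numbers `z`, or more generally
`exp (p_j (z))` with algebraic functions `p_1, …, p_m`, and compare them with the periods and quasi-periods `ω₁ (z)`,
`ω₂ (z)`, `η₁ (z)` of a nonconstant family of elliptic curves with algebraic invariants `g₂ (z)`, `g₃ (z)` (for instance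
the complete elliptic integrals), the incomplete elliptic integrals `u_i (z)`, `ζ (u_i (z))` of the first and second kind
(`℘ (u_i)` is an algebraic function), and the logarithms `l_k (z)` of algebraic functions. If these data are defined over
the algebraic numbers, then all these numbers except the exponentials are periods for algebraic `z`. For 100% of the
integral polynomials of degree `g`, ordered by the maximum `T` of the absolute values of the coefficients, we
prove that the exponentials and the periods, `z` ALL roots of the polynomial in `V` (at distance at least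
`1 / (k + 1)` from the complement), satisfy no relation whose degree, and the degree of whose coefficient field, is at
most `ω (T)`, and whose coefficients are of size at most `T ^ ω (T)`, where `ω (T) → ∞` (the coefficients may also
contain arbitrary fixed complex numbers, for instance `π` or any other fixed periods); in particular the exponentials
are not rational functions, of complexity at most `ω (T)`, of these periods. We also prove lower bounds with
arbitrary complex coefficients.

Proof: `Pool.Agent.X255.NP` and `Pool.Agent.Y890.MV` (nonstandard versions of the Bombieri-Pila method), the independence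
of the functions (`Pool.Agent.Y776.Cv.var_sub`, and `Pool.Agent.X255.RH.fv_mix`: all algebraic functions omitted), and
`Pool.Agent.X255.RH` (independence of functions of different variables; almost no integral polynomial has close roots).
-/

set_option autoImplicit false

open Polynomial Filter NumberField
open scoped Classical

namespace Pool.Agent.Results.MP_2cf66e_nt.ExponentialsVsEllipticPeriods

/-- The Weierstrass zeta function `ζ(z) = ∑ (1/(z-l) + 1/l + z/l²)`, the sum over the lattice (the summand of `l = 0` is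
`1/z`, since `1/0 = 0` in Lean). -/
noncomputable def ζ (L : PeriodPair) (z : ℂ) : ℂ :=
  ∑' l : L.lattice, (1 / (z - l) + 1 / l + z / l ^ 2)

/-- an algebraic function on `V` -/
def Algebraic (V : Set ℂ) (f : ℂ → ℂ) : Prop := ∃ Q : ℂ[X][X], Q ≠ 0 ∧ ∀ z ∈ V, Q.evalEval z (f z) = 0

/-- Algebraic functions `p_j`, logarithms `l_k` of algebraic functions, a nonconstant family of lattices with algebraic
invariants, elliptic integrals `u_i` of the first kind. -/
structure Data (V : Set ℂ) {m s r : ℕ} (p : Fin m → ℂ → ℂ) (l : Fin s → ℂ → ℂ) (Λ : ℂ → PeriodPair)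
    (u : Fin r → ℂ → ℂ) : Prop where
  isOpen : IsOpen V
  isPreconnected : IsPreconnected V
  nonempty : V.Nonempty
  analytic_p : ∀ j, AnalyticOnNhd ℂ (p j) V
  algebraic_p : ∀ j, Algebraic V (p j)
  analytic_l : ∀ k, AnalyticOnNhd ℂ (l k) V
  algebraic_l : ∀ k, Algebraic V fun z => Complex.exp (l k z)
  /-- no nontrivial combination with integral coefficients of the `p_j` and `l_k` is constant -/
  independent_l : ∀ (a : Fin m → ℤ) (b : Fin s → ℤ) (c : ℂ),
    (∀ z ∈ V, ∑ j, (a j : ℂ) * p j z + ∑ k, (b k : ℂ) * l k z = c) → a = 0 ∧ b = 0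
  /-- the lattice depends analytically on `z`, its invariants are algebraic functions -/
  analytic₁ : AnalyticOnNhd ℂ (fun z => (Λ z).ω₁) V
  analytic₂ : AnalyticOnNhd ℂ (fun z => (Λ z).ω₂) V
  algebraic_g₂ : Algebraic V fun z => (Λ z).g₂
  algebraic_g₃ : Algebraic V fun z => (Λ z).g₃
  /-- the quotient of the periods is not constant -/
  nonconstant : ∀ c : ℂ, ∃ z ∈ V, (Λ z).ω₂ / (Λ z).ω₁ ≠ c
  analytic_u : ∀ i, AnalyticOnNhd ℂ (u i) V
  u_notMem : ∀ i, ∀ z ∈ V, u i z ∉ (Λ z).lattice
  algebraic_u : ∀ i, Algebraic V fun z => (Λ z).weierstrassP (u i z)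
  /-- no nontrivial combination with integral coefficients of the `u_i` is in all lattices -/
  independent_u : ∀ n : Fin r → ℤ, (∀ z ∈ V, ∑ i, (n i : ℂ) * u i z ∈ (Λ z).lattice) → n = 0

/-- the numbers `ω₁`, `ω₂`, `η₁ = 2 ζ (ω₁ / 2)`, `u_i`, `ζ (u_i)`, `exp (p_j)`, `l_k` at `z` -/
noncomputable def value {m s r : ℕ} (p : Fin m → ℂ → ℂ) (l : Fin s → ℂ → ℂ) (Λ : ℂ → PeriodPair)
    (u : Fin r → ℂ → ℂ) (z : ℂ) : Fin 3 ⊕ (Fin r ⊕ (Fin r ⊕ (Fin m ⊕ Fin s))) → ℂ
  | Sum.inl i => ![(Λ z).ω₁, (Λ z).ω₂, 2 * ζ (Λ z) ((Λ z).ω₁ / 2)] i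
  | Sum.inr (Sum.inl i) => u i z
  | Sum.inr (Sum.inr (Sum.inl i)) => ζ (Λ z) (u i z)
  | Sum.inr (Sum.inr (Sum.inr (Sum.inl j))) => Complex.exp (p j z)
  | Sum.inr (Sum.inr (Sum.inr (Sum.inr k))) => l k z

/-- the polynomial `a_g X ^ g + … + a_0` -/
noncomputable def poly {g : ℕ} (a : Fin (g + 1) → ℤ) : ℂ[X] := ∑ i, C (a i : ℂ) * X ^ (i : ℕ)

/-- the roots of the polynomial in the set `V` -/
noncomputable def rootsIn (V : Set ℂ) {g : ℕ} (a : Fin (g + 1) → ℤ) : Finset ℂ :=
  (poly a).roots.toFinset.filter fun z => z ∈ V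

/-- The numbers `x q`, `q ∈ Q`, satisfy no relation of degree at most `k` in each of them with coefficients
`∑ ξ b * c b`, `b < k`, where the `c b` are integers of a number field of degree at most `k`, all of whose conjugates
are of absolute value at most `T ^ k`, except the relations all of whose coefficients vanish. -/
def Unrelated {Q : Type} [Fintype Q] [DecidableEq Q] (ξ : ℕ → ℂ) (k : ℕ) (T : ℝ) (x : Q → ℂ) : Prop :=
  ∀ (F : Type) [Field F] [NumberField F], Module.finrank ℚ F ≤ k → ∀ (io : F →+* ℂ)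
    (c : (Q → Fin (k + 1)) → Fin k → 𝓞 F), (∀ l b (φ : F →+* ℂ), ‖φ (c l b : F)‖ ≤ T ^ k) →
    ∑ l, (∑ b : Fin k, ξ b * io (c l b : F)) * ∏ q, x q ^ (l q : ℕ) = 0 → ∀ l, ∑ b : Fin k, ξ b * io (c l b : F) = 0

/-- Every polynomial `P` of degree at most `k` in each of the numbers `x q`, with coefficients `∑ ξ b * c b`, `b < k`,
where the `c b` are rational integers of absolute value at most `T ^ k`, satisfies `|P (x)| ≥ T ^ (-B) |p|` for each of
its coefficients `p`. -/
def Measure {Q : Type} [Fintype Q] [DecidableEq Q] (ξ : ℕ → ℂ) (k : ℕ) (B T : ℝ) (x : Q → ℂ) : Prop :=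
  ∀ c : (Q → Fin (k + 1)) → Fin k → ℤ, (∀ l b, |(c l b : ℝ)| ≤ T ^ k) → ∀ l₀,
    T ^ (-B) * ‖∑ b : Fin k, ξ b * (c l₀ b : ℂ)‖ ≤
      ‖∑ l, (∑ b : Fin k, ξ b * (c l b : ℂ)) * ∏ q, x q ^ (l q : ℕ)‖

/-- the `a` with `|a_i| ≤ T` -/
noncomputable def box (g T : ℕ) : Finset (Fin (g + 1) → ℤ) := Fintype.piFinset fun _ => Finset.Icc (-(T : ℤ)) T

/-- the points whose distance to the complement of `V` is at least `1 / (k + 1)` -/
def region (V : Set ℂ) (k : ℕ) : Set ℂ := {z | Metric.ball z (1 / ((k : ℝ) + 1)) ⊆ V}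

/-- the numbers `ω₁`, `ω₂`, `η₁`, `u_i`, `ζ (u_i)`, `exp (p_j)`, `l_k` at all roots of `a` in the set `K` -/
noncomputable def numbers {g m s r : ℕ} (K : Set ℂ) (p : Fin m → ℂ → ℂ) (l : Fin s → ℂ → ℂ) (Λ : ℂ → PeriodPair)
    (u : Fin r → ℂ → ℂ) (a : Fin (g + 1) → ℤ)
    (x : {z // z ∈ rootsIn K a} × (Fin 3 ⊕ (Fin r ⊕ (Fin r ⊕ (Fin m ⊕ Fin s))))) : ℂ :=
  value p l Λ u x.1 x.2

/-- `a` is of degree `g`, with simple roots, and the numbers at the roots in `region V k` are unrelated -/
def Good {g m s r : ℕ} (V : Set ℂ) (p : Fin m → ℂ → ℂ) (l : Fin s → ℂ → ℂ)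
    (Λ : ℂ → PeriodPair) (u : Fin r → ℂ → ℂ) (ξ : ℕ → ℂ) (k : ℕ) (T : ℝ) (a : Fin (g + 1) → ℤ) : Prop :=
  a (Fin.last g) ≠ 0 ∧ (poly a).Separable ∧ Unrelated ξ k T (numbers (region V k) p l Λ u a)

/-- `a` is of degree `g`, with simple roots, and the numbers at the roots in `region V k` satisfy the lower bounds -/
def GoodM {g m s r : ℕ} (V : Set ℂ) (p : Fin m → ℂ → ℂ) (l : Fin s → ℂ → ℂ)
    (Λ : ℂ → PeriodPair) (u : Fin r → ℂ → ℂ) (ξ : ℕ → ℂ) (k : ℕ) (B T : ℝ) (a : Fin (g + 1) → ℤ) : Prop :=
  a (Fin.last g) ≠ 0 ∧ (poly a).Separable ∧ Measure ξ k B T (numbers (region V k) p l Λ u a)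

/-- `a` is of degree `g`, its roots are simple, of absolute value at most `R`, at distance at least `η` from each other,
and the roots in `V` are at distance at least `η` from the complement of `V` -/
def Position (V : Set ℂ) (R η : ℝ) {g : ℕ} (a : Fin (g + 1) → ℤ) : Prop :=
  a (Fin.last g) ≠ 0 ∧ (poly a).Separable ∧ ∀ z, (poly a).eval z = 0 → ‖z‖ ≤ R ∧
    (∀ w, (poly a).eval w = 0 → w ≠ z → η ≤ ‖z - w‖) ∧ (z ∈ V → Metric.ball z η ⊆ V)

theorem indep {m s r : ℕ} {V : Set ℂ} {p : Fin m → ℂ → ℂ} {l : Fin s → ℂ → ℂ}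
    {Λ : ℂ → PeriodPair} {u : Fin r → ℂ → ℂ} (hd : Data V p l Λ u) :
    (∀ w, AnalyticOnNhd ℂ (fun z => value p l Λ u z w) V) ∧
      Pool.Agent.X255.RH.Indep V (fun w z => value p l Λ u z w) := by
  have hF : Pool.Agent.Y776.Cv.FxV V Λ u (Fin.append p l) :=
    { isOpen := hd.isOpen
      conn := hd.isPreconnected
      an₁ := hd.analytic₁
      an₂ := hd.analytic₂
      nr := hd.nonconstant
      ua := hd.analytic_u
      un := hd.u_notMem
      ui := hd.independent_u
      la := by
        intro k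
        refine Fin.addCases (fun j => ?_) (fun j => ?_) k
        · rw [Fin.append_left]
          exact hd.analytic_p j
        · rw [Fin.append_right]
          exact hd.analytic_l j
      li := by
        intro a c hc
        have h1 := hd.independent_l (fun j => a (Fin.castAdd s j)) (fun k => a (Fin.natAdd m k)) c (by
          intro z hz
          rw [← hc z hz, Fin.sum_univ_add]
          simp only [Fin.append_left, Fin.append_right])
        funext k
        refine Fin.addCases (fun j => ?_) (fun j => ?_) k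
        · exact congrFun h1.1 j
        · exact congrFun h1.2 j }
  have hval : (fun w z => value p l Λ u z w) =
      fun i => Pool.Agent.Y776.Cv.yv Λ u (Fin.append p l) (Pool.Agent.X255.RH.hB r m s i) := by
    funext i z
    rcases i with i | i | i | j | k
    · fin_cases i
      · rfl
      · rfl
      · exact (Pool.Agent.TH813.Ell.eta_half (Λ z).ω₁_mem_lattice (Pool.Agent.TH813.Ell.half₁ (Λ z))).symm
    · rfl
    · rfl
    · simp [value, Pool.Agent.Y776.Cv.yv, Pool.Agent.X255.RH.hB]
    · simp [value, Pool.Agent.Y776.Cv.yv, Pool.Agent.X255.RH.hB]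
  refine ⟨fun w => ?_, ?_⟩
  · have h1 := Pool.Agent.Y776.Cv.yv_an hF (Pool.Agent.X255.RH.hB r m s w)
    rw [← congrFun hval w] at h1
    exact h1
  · rw [hval]
    exact Pool.Agent.X255.RH.fv_mix hF hd.nonempty hd.algebraic_g₂ hd.algebraic_g₃ hd.algebraic_p hd.algebraic_l
      hd.algebraic_u

/-- **Theorem.** Let `g ≥ 1` and let `p_j`, `l_k`, `Λ`, `u_i` be as in `Data`.
(1) For every sequence `ξ` there is a monotone `ω`, `ω(T) → ∞`, such that the proportion of the polynomials with
`|a_i| ≤ T` which are not `Good` with `k = ω(T)` is at most `1 / ω(T)`.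
(2) For every `k ≥ 1` there are `B` and `T₀` such that for `T ≥ T₀` and all `ξ` (which may depend on `T`) the proportion
of the polynomials with `|a_i| ≤ T` which are not `GoodM` is at most `1 / k`.
(3) For fixed `k ≥ 1`, `R`, `η > 0` and `ε > 0` there are `B`, `C` such that for all `ξ` the lower bounds
`Measure ξ k B T` for the numbers at the roots in `V` hold for all but `C T ^ (g + ε)` of the polynomials with
`|a_i| ≤ T` whose roots are in the compact position `Position V R η` (there are about `(2 T) ^ (g + 1)` polynomials).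
 -/
theorem result (g m s r : ℕ) (hg : 0 < g) (V : Set ℂ) 
    (p : Fin m → ℂ → ℂ) (l : Fin s → ℂ → ℂ) (Λ : ℂ → PeriodPair) (u : Fin r → ℂ → ℂ) (hd : Data V p l Λ u) :
    (∀ ξ : ℕ → ℂ, ∃ ω : ℕ → ℕ, Tendsto ω atTop atTop ∧ Monotone ω ∧ ∀ T,
      ω T * ((box g T).filter fun a => ¬ Good V p l Λ u ξ (ω T) T a).card ≤ (box g T).card) ∧
    (∀ k : ℕ, 1 ≤ k → ∃ (B : ℝ) (T₀ : ℕ), ∀ T : ℕ, T₀ ≤ T → ∀ ξ : ℕ → ℂ,
      (k : ℝ) * ((box g T).filter fun a => ¬ GoodM V p l Λ u ξ k B T a).card ≤ (box g T).card) ∧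
    (∀ (k : ℕ) (R η ε : ℝ), 1 ≤ k → 0 < η → 0 < ε → ∃ B C : ℝ, ∀ T : ℕ, 1 ≤ T → ∀ ξ : ℕ → ℂ,
      (((box g T).filter fun a => Position V R η a ∧ ¬ Measure ξ k B T (numbers V p l Λ u a)).card : ℝ) ≤
        C * (T : ℝ) ^ ((g : ℝ) + ε)) := by
  have hop : IsOpen V := hd.isOpen
  have hpre : IsPreconnected V := hd.isPreconnected
  obtain ⟨han, hind⟩ := indep hd

  refine ⟨fun ξ => ?_, fun k hk => ?_, fun k R η ε hk hη hε => ?_⟩
  · exact Pool.Agent.X255.RH.main_all (g := g) hg hpre hop (region V) (Pool.Agent.X255.RH.tame_deep V) han hind ξ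
  · exact Pool.Agent.X255.RH.mea_all (g := g) hg hpre hop (Pool.Agent.X255.RH.tame_deep V k) han hind k hk
  · exact Pool.Agent.X255.RH.mea_eps (g := g) hg hpre hop han hind V k R η ε hη hε

end Pool.Agent.Results.MP_2cf66e_nt.ExponentialsVsEllipticPeriods
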