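import Pool.Agent.X148.TR.Poly

set_option autoImplicit false

/-!
# Polynomials in `e` and in exponentials of algebraic numbers

`Forms γ` is the space of all linear combinations, with algebraic coefficients, of the integrals
of rational functions of one variable with algebraic coefficients over compact intervals with
algebraic end points, of all logarithms of algebraic numbers, and of finitely many arbitrary
complex numbers `γ 0, ..., γ (g - 1)`.
-/

namespace Pool.Agent.Results.MP_2cf66e_nt.PolynomialsInExponentials

open Pool.Agent.TH379.PER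
open Pool.Agent.X148.TR
open scoped Pointwise

/-- (1) polynomials in `e`, (2) polynomials in several exponentials, (3) combinations of the
numbers `e ^ b`, `b ∈ B`, for an arbitrary finite set `B` -/
theorem result (g : ℕ) (γ : Fin g → ℂ) :
    (∀ D : ℕ, (Module.finrank (algebraicClosure ℚ ℂ)
      {P : Polynomial (algebraicClosure ℚ ℂ) // P ∈ polySpace γ D} : ℝ) ≤
        2 * Real.sqrt D + 1 + g) ∧
    (∀ (r : ℕ) (α : Fin r → ℂ), (∀ i, IsAlgebraic ℚ (α i)) → LinearIndependent ℚ α → ∀ D : ℕ,
      (Module.finrank (algebraicClosure ℚ ℂ) (expPolySpace γ α D) : ℝ) ≤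
        2 ^ (r + 1) * Real.sqrt ((D + 1) ^ r) + g) ∧
    (∀ A B : Finset ℂ, (∀ a ∈ A, IsAlgebraic ℚ a) →
      A.card * Module.finrank (algebraicClosure ℚ ℂ) ↥(expSpan B ⊓ Forms γ) ≤
        (A + B).card + A.card * (A.card - 1) + A.card * g) :=
  ⟨fun D => poly_bound γ D, fun _ _ hα hli D => expPoly_bound γ hα hli D,
    fun A B hA => exp_ineq γ A B hA⟩

end Pool.Agent.Results.MP_2cf66e_nt.PolynomialsInExponentials
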